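import Mathlib
import Pool.Agent.Helper25_Dom.Final

set_option autoImplicit false

open Finset

namespace Pool.Agent.Results.MP_8cad3b_co.IndepGap

/-- The graph `G_{l,2}(n)`: its vertices are the `l`-element and the `2`-element subsets of an
`n`-element set, and an `l`-set `A` and a `2`-set `B` are adjacent exactly when `B ⊆ A`
(distinct vertices only; for `l ≥ 3` an `l`-set and a `2`-set are always distinct). -/
def levelGraph (l n : ℕ) : SimpleGraph {s : Finset (Fin n) // #s = l ∨ #s = 2} :=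
  SimpleGraph.fromRel fun A B => #A.1 = l ∧ #B.1 = 2 ∧ B.1 ⊆ A.1

/-- `D` is an independent dominating set of `G`: no two of its vertices are adjacent and every
vertex outside `D` has a neighbour in `D`. -/
def IsIndepDominating {V : Type} (G : SimpleGraph V) (D : Finset V) : Prop :=
  (∀ u ∈ D, ∀ v ∈ D, ¬ G.Adj u v) ∧ ∀ v, v ∉ D → ∃ w ∈ D, G.Adj v w

/-- The independent domination number: the least size of an independent dominating set. -/
noncomputable def indepDomNumber {V : Type} (G : SimpleGraph V) : ℕ :=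
  sInf {k | ∃ D : Finset V, IsIndepDominating G D ∧ #D = k}

theorem adj_iff {l n : ℕ} (hl : 3 ≤ l) (A B : {s : Finset (Fin n) // #s = l ∨ #s = 2}) :
    (levelGraph l n).Adj A B ↔
      (#A.1 = l ∧ #B.1 = 2 ∧ B.1 ⊆ A.1) ∨ (#B.1 = l ∧ #A.1 = 2 ∧ A.1 ⊆ B.1) := by
  unfold levelGraph
  rw [SimpleGraph.fromRel_adj]
  constructor
  · exact fun h => h.2
  · intro h
    refine ⟨?_, h⟩
    rintro rfl
    rcases h with ⟨h1, h2, _⟩ | ⟨h1, h2, _⟩ <;> omega

theorem exists_indepDominating {l n : ℕ} (hl : 3 ≤ l) :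
    ∃ D : Finset {s : Finset (Fin n) // #s = l ∨ #s = 2}, IsIndepDominating (levelGraph l n) D := by
  classical
  refine ⟨univ.filter fun A => #A.1 = 2, ?_, ?_⟩
  · intro A hA B hB h
    rw [mem_filter] at hA hB
    rw [adj_iff hl] at h
    rcases h with ⟨h1, h2, _⟩ | ⟨h1, h2, _⟩ <;> omega
  · intro A hA
    rw [mem_filter] at hA
    have hAl : #A.1 = l := by
      rcases A.2 with h | h
      · exact h
      · exact absurd ⟨mem_univ _, h⟩ hA
    obtain ⟨B, hB, hBc⟩ := exists_subset_card_eq (s := A.1) (n := 2) (by omega)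
    exact ⟨⟨B, Or.inr hBc⟩, mem_filter.2 ⟨mem_univ _, hBc⟩,
      (adj_iff hl _ _).2 (Or.inl ⟨hAl, hBc, hB⟩)⟩

open Pool.Agent.Helper25_Dom in
theorem card_ge {l n : ℕ} (hl : 3 ≤ l) (D : Finset {s : Finset (Fin n) // #s = l ∨ #s = 2})
    (hD : IsIndepDominating (levelGraph l n) D) :
    ∃ (H : SimpleGraph (Fin n)) (_ : DecidableRel H.Adj),
      (∀ x y, H.Adj x y → ∃ K ∈ H.cliqueFinset l, x ∈ K ∧ y ∈ K) ∧
      2 * #(H.cliqueFinset l) + (n * n - n) ≤ 2 * #D + E2 H := by
  classical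
  obtain ⟨hind, hdom⟩ := hD
  let H : SimpleGraph (Fin n) :=
    { Adj := fun x y => x ≠ y ∧ ∀ v ∈ D, v.1 ≠ {x, y}
      symm := ⟨fun x y h => ⟨h.1.symm, fun v hv => by rw [pair_comm]; exact h.2 v hv⟩⟩
      loopless := ⟨fun x h => h.1 rfl⟩ }
  have hHadj : ∀ x y, H.Adj x y ↔ x ≠ y ∧ ∀ v ∈ D, v.1 ≠ {x, y} := fun x y => Iff.rfl
  -- a set of `D` with `l` elements is a clique of `H`
  have hclique : ∀ A ∈ D, #A.1 = l → H.IsNClique l A.1 := by
    intro A hA hAl
    refine ⟨?_, hAl⟩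
    intro x hx y hy hxy
    rw [hHadj]
    refine ⟨hxy, fun v hv h => ?_⟩
    refine hind A hA v hv ((adj_iff hl _ _).2 (Or.inl ⟨hAl, ?_, ?_⟩))
    · rw [h, card_pair hxy]
    · rw [h]
      intro z hz
      rw [mem_insert, mem_singleton] at hz
      rcases hz with rfl | rfl
      · exact hx
      · exact hy
  have hcov : ∀ x y, H.Adj x y → ∃ K ∈ H.cliqueFinset l, x ∈ K ∧ y ∈ K := by
    intro x y hxy
    rw [hHadj] at hxy
    let v : {s : Finset (Fin n) // #s = l ∨ #s = 2} := ⟨{x, y}, Or.inr (card_pair hxy.1)⟩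
    have hv : v ∉ D := fun h => hxy.2 v h rfl
    obtain ⟨w, hw, hvw⟩ := hdom v hv
    rw [adj_iff hl] at hvw
    rcases hvw with ⟨h1, -, -⟩ | ⟨h1, -, h3⟩
    · have : #v.1 = 2 := card_pair hxy.1
      omega
    · refine ⟨w.1, ?_, h3 (mem_insert_self _ _), h3 (mem_insert_of_mem (mem_singleton_self _))⟩
      rw [SimpleGraph.mem_cliqueFinset_iff]
      exact hclique w hw h1
  refine ⟨H, inferInstance, hcov, ?_⟩
  -- cliques belong to `D`
  have h1 : #(H.cliqueFinset l) ≤ #(D.filter fun A => #A.1 = l) := by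
    refine card_le_card_of_surjOn (fun A => A.1) ?_
    intro K hK
    rw [mem_coe, SimpleGraph.mem_cliqueFinset_iff] at hK
    refine ⟨⟨K, Or.inl hK.card_eq⟩, ?_, rfl⟩
    rw [mem_coe, mem_filter]
    refine ⟨?_, hK.card_eq⟩
    by_contra hc
    obtain ⟨w, hw, hvw⟩ := hdom _ hc
    rw [adj_iff hl] at hvw
    rcases hvw with ⟨-, h2, h3⟩ | ⟨-, h2, -⟩
    · obtain ⟨x, y, hxy, hwxy⟩ := card_eq_two.1 h2
      simp only at h3
      rw [hwxy] at h3
      have hx : x ∈ K := h3 (mem_insert_self _ _)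
      have hy : y ∈ K := h3 (mem_insert_of_mem (mem_singleton_self _))
      have hadj : H.Adj x y := hK.isClique hx hy hxy
      exact ((hHadj x y).1 hadj).2 w hw hwxy
    · have := hK.card_eq
      simp only at h2
      omega
  have h2 : #(D.filter fun A => #A.1 = l) + #(D.filter fun A => #A.1 = 2) ≤ #D := by
    rw [← card_union_of_disjoint]
    · exact card_le_card (union_subset (filter_subset _ _) (filter_subset _ _))
    · rw [disjoint_filter]
      intro A _ h1 h2
      omega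
  have h3 : n * n - n ≤ E2 H + 2 * #(D.filter fun A => #A.1 = 2) := by
    have h4 : (univ : Finset (Fin n)).offDiag ⊆ (univ.filter fun p : Fin n × Fin n =>
        H.Adj p.1 p.2) ∪ (D.filter fun A => #A.1 = 2).biUnion fun A => A.1.offDiag := by
      rintro ⟨x, y⟩ hxy
      have hne : x ≠ y := (mem_offDiag.1 hxy).2.2
      rw [mem_union]
      by_cases h : H.Adj x y
      · exact Or.inl (mem_filter.2 ⟨mem_univ _, h⟩)
      · right
        rw [hHadj] at h
        push Not at h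
        obtain ⟨v, hv, hvxy⟩ := h hne
        refine mem_biUnion.2 ⟨v, mem_filter.2 ⟨hv, by rw [hvxy, card_pair hne]⟩, ?_⟩
        rw [hvxy]
        exact mem_offDiag.2 ⟨mem_insert_self _ _, mem_insert_of_mem (mem_singleton_self _), hne⟩
    have h5 := (card_le_card h4).trans (card_union_le _ _)
    rw [offDiag_card, card_univ, Fintype.card_fin] at h5
    refine h5.trans (Nat.add_le_add_left ?_ _)
    have h6 := card_biUnion_le_card_mul (D.filter fun A => #A.1 = 2) (fun A => A.1.offDiag) 2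
      (by
        intro A hA
        rw [offDiag_card, (mem_filter.1 hA).2])
    rw [mul_comm]
    exact h6
  omega

/-- **Affirmative answer to Q1.** For every `l ≥ 4` there is `ε > 0` such that
`i(G_{l,2}(n)) ≥ (c_l + ε) * (n choose 2)` for all sufficiently large `n`, where
`c_l = (l + 3) / ((l - 1) (l + 1))`. -/
theorem result : ∀ l : ℕ, 4 ≤ l → ∃ ε : ℝ, 0 < ε ∧ ∃ N : ℕ, ∀ n : ℕ, N ≤ n →
    (((l : ℝ) + 3) / ((l - 1) * (l + 1)) + ε) * (n.choose 2 : ℝ) ≤
      (indepDomNumber (levelGraph l n) : ℝ) := by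
  intro l hl
  obtain ⟨m, rfl⟩ : ∃ m, l = m + 1 := ⟨l - 1, by omega⟩
  have hm : 3 ≤ m := by omega
  obtain ⟨ε, hε, N, hN⟩ := Pool.Agent.Helper25_Dom.main_ineq m hm
  refine ⟨ε, hε, max N 1, fun n hn => ?_⟩
  have hn1 : N ≤ n := (le_max_left _ _).trans hn
  have hn2 : 1 ≤ n := (le_max_right _ _).trans hn
  -- a minimum independent dominating set
  have hne : {k | ∃ D : Finset {s : Finset (Fin n) // #s = m + 1 ∨ #s = 2},
      IsIndepDominating (levelGraph (m + 1) n) D ∧ #D = k}.Nonempty := by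
    obtain ⟨D, hD⟩ := exists_indepDominating (l := m + 1) (n := n) (by omega)
    exact ⟨#D, D, hD, rfl⟩
  obtain ⟨D, hD, hDcard⟩ := Nat.sInf_mem hne
  have hDi : #D = indepDomNumber (levelGraph (m + 1) n) := hDcard
  rw [← hDi]
  obtain ⟨H, _, hcov, hcard⟩ := card_ge (l := m + 1) (n := n) (by omega) D hD
  have h1 := hN n hn1 H hcov
  have h2 : 2 * (#(H.cliqueFinset (m + 1)) : ℝ) + (n * n - n) ≤
      2 * #D + Pool.Agent.Helper25_Dom.E2 H := by
    have h3 : ((n * n - n : ℕ) : ℝ) = (n : ℝ) * n - n := by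
      rw [Nat.cast_sub (by nlinarith)]
      push_cast
      ring
    rw [← h3]
    exact_mod_cast hcard
  have h4 : ((n.choose 2 : ℕ) : ℝ) = (n : ℝ) * (n - 1) / 2 := Nat.cast_choose_two ℝ n
  rw [h4]
  have h5 : (((m + 1 : ℕ) : ℝ) + 3) / ((((m + 1 : ℕ) : ℝ) - 1) * (((m + 1 : ℕ) : ℝ) + 1)) =
      ((m : ℝ) + 4) / (m * (m + 2)) := by
    push_cast
    ring_nf
  rw [h5]
  nlinarith

end Pool.Agent.Results.MP_8cad3b_co.IndepGap
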